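import Pool.Agent.H.MP_3b7dc8_lc.D

namespace Pool.Agent.Results.MP_3b7dc8_lc.No

open Finset Pool.Agent.H.MP_3b7dc8_lc

theorem size_le (n : ℕ) : size (GG n) (fun q => (xn q : ℚ)⁻¹) (fun q => (yn q : ℚ)⁻¹)
    ((4000 * (n + 1) : ℕ) : ℚ)⁻¹ ≤ (100 * (n + 1)) ^ 3 := by
  have a1 : ∀ u v, 1 + bits ((GG n).prob u v) ≤ 5 * (n + 1) := fun u v => by
    have h1 := bits_inv (pn u v)
    have h2 : pn u v ≤ n + 1 := by
      unfold pn
      split
      · split_ifs <;> omega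
      · omega
    change 1 + bits (pn u v : ℚ)⁻¹ ≤ _
    omega
  have a2 : ∀ u q, 1 + bits ((GG n).rew u q) ≤ 6 := fun u q => by
    have h1 := bits_inv (u.elim 0 fun x => rn x q)
    have h2 : (u.elim 0 fun x => rn x q) ≤ 2 := by
      cases u
      · simp
      · simp only [Option.elim, rn]
        split_ifs <;> omega
    change 1 + bits ((u.elim 0 fun x => rn x q : ℕ) : ℚ)⁻¹ ≤ _
    omega
  have a3 : ∀ q : Pl n, bits (xn q : ℚ)⁻¹ + bits (yn q : ℚ)⁻¹ ≤ 10 * (n + 1) := fun ⟨k, j⟩ => by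
    have h1 := bits_inv (xn (k, j))
    have h2 := bits_inv (yn (k, j))
    have h3 : xn (k, j) ≤ 2 * (n + 1) ∧ yn (k, j) ≤ 2 * (n + 1) := by
      fin_cases j <;> simp [xn, yn] <;> omega
    omega
  have b1 := sum_le_card_nsmul univ _ _ fun u _ => sum_le_card_nsmul univ _ _ fun v _ => a1 u v
  have b2 := sum_le_card_nsmul univ _ _ fun u _ => sum_le_card_nsmul univ _ _ fun v _ => a2 u v
  have b3 := sum_le_card_nsmul univ _ _ fun u _ => a3 u
  have b4 := bits_inv (4000 * (n + 1))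
  simp only [card_univ, Fintype.card_option, Fintype.card_prod, Fintype.card_fin,
    smul_eq_mul] at b1 b2 b3
  unfold size
  nlinarith [Nat.zero_le (n ^ 3), Nat.zero_le (n ^ 2)]

theorem result (p : Polynomial ℕ) : ∃ (V P : Type) (_ : Fintype V) (_ : Fintype P) (G : Game V P)
    (x y : P → ℚ) (ε : ℚ), 0 < ε ∧
    (∃ s, G.IsNE ε s ∧ ∀ i, x i ≤ G.E (fun _ => s) i ∧ G.E (fun _ => s) i ≤ y i) ∧
    ∀ s, G.IsNE ε s → (∀ i, x i - ε ≤ G.E (fun _ => s) i ∧ G.E (fun _ => s) i ≤ y i + ε) →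
      (∃ u v i, G.kind u = .player i ∧ 0 < s u v ∧ s u v < 1 / 2 ^ p.eval (size G x y ε)) ∧
      ∀ L ≤ p.eval (size G x y ε), ¬ ∀ u v i, G.kind u = .player i → ∃ z : ℤ, s u v = z / 2 ^ L := by
  obtain ⟨n, hn, h⟩ := poly_lt (p.comp ((100 * (.X + 1)) ^ 3) + 1)
  have h1 := eval_mono p (size_le n)
  simp only [Polynomial.eval_add, Polynomial.eval_comp, Polynomial.eval_pow, Polynomial.eval_mul,
    Polynomial.eval_ofNat, Polynomial.eval_X, Polynomial.eval_one] at h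
  have e : (((4000 * (n + 1) : ℕ) : ℚ)⁻¹ : ℝ) = 1 / 4000 / (n + 1) := by
    push_cast
    field_simp
  refine ⟨_, _, inferInstance, inferInstance, GG n, fun q => (xn q : ℚ)⁻¹, fun q => (yn q : ℚ)⁻¹,
    ((4000 * (n + 1) : ℕ) : ℚ)⁻¹, by positivity, ⟨mk g0, ?_, fun ⟨k, j⟩ => ?_⟩, fun s h2 h3 => ?_⟩
  · rw [Rat.cast_inv, e]
    exact NE0 hn
  · rw [E0 hn]
    have : (0 : ℝ) < n + 1 := by positivity
    fin_cases j <;> simp [xn, yn] <;> (try split_ifs) <;> (try constructor) <;>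
      first | positivity | field_simp <;> linarith
  generalize p.eval (size (GG n) _ _ _) = N at *
  simp only [Rat.cast_natCast] at e
  simp only [Rat.cast_inv, e, Rat.cast_natCast] at h2 h3
  obtain ⟨h4, h5⟩ := need hn h2 (fun q => (h3 q).1) fun q => (h3 q).2
  have h6 : ∀ L ≤ N, s (some (Fin.last n, 2)) (some (Fin.last n, 8)) < 1 / 2 ^ L := fun L hL => by
    refine h5.trans_lt ?_
    rw [div_lt_div_iff₀ (by positivity) (by positivity), ← pow_succ', one_mul]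
    exact pow_lt_pow_right₀ one_lt_two (by omega)
  refine ⟨⟨_, _, _, kd (by simp), h4, h6 N le_rfl⟩, fun L hL h7 => ?_⟩
  obtain ⟨z, hz⟩ := h7 (some (Fin.last n, 2)) (some (Fin.last n, 8)) _ (kd (by simp))
  have := h6 L hL
  rw [hz] at h4 this
  have a1 : (0 : ℝ) < z := (div_pos_iff_of_pos_right (by positivity)).1 h4
  have a2 : (z : ℝ) < 1 := (div_lt_div_iff_of_pos_right (by positivity)).1 this
  have a3 : 0 < z := by exact_mod_cast a1
  have a4 : z < 1 := by exact_mod_cast a2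
  omega

end Pool.Agent.Results.MP_3b7dc8_lc.No
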